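import Pool.Agent.Run7.h543.DEP.Stm

/-!
# UPP: the Jastrow upper bound (project DEP of helper543)
-/

set_option autoImplicit false
set_option linter.unusedSectionVars false

noncomputable section

namespace Pool.Agent.Run7.h270.DEP

open Finset Matrix Run7.h259.BEC Run7.h543.DEP

variable {V : Type} [Fintype V] [DecidableEq V]

/-- the square of the Jastrow function -/
def AA (U : Matrix V V ℝ) (S : Finset V) : ℝ :=
  ∏ a ∈ S, ∏ b ∈ S, if a = b then 1 else (1 - U a b)

/-- the Jastrow factor of a new particle -/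
def FF (U : Matrix V V ℝ) (S : Finset V) (x : V) : ℝ := ∏ z ∈ S, (1 - U x z)

lemma AA_insert (U : Matrix V V ℝ) (hs : ∀ x y, U x y = U y x) (S : Finset V) (x : V)
    (hx : x ∉ S) : AA U (insert x S) = AA U S * FF U S x ^ 2 := by
  unfold AA FF
  have h1 : ∏ b ∈ insert x S, (if x = b then 1 else 1 - U x b) = ∏ z ∈ S, (1 - U x z) := by
    rw [prod_insert hx, if_pos rfl, one_mul]
    exact prod_congr rfl fun b hb => if_neg (fun h : x = b => hx (h ▸ hb))
  have h2 : ∀ a ∈ S, ∏ b ∈ insert x S, (if a = b then 1 else 1 - U a b) =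
      (1 - U x a) * ∏ b ∈ S, (if a = b then 1 else 1 - U a b) := by
    intro a ha
    rw [prod_insert hx, if_neg (fun h : a = x => hx (h ▸ ha)), hs a x]
  rw [prod_insert hx, h1, prod_congr rfl h2, prod_mul_distrib]
  ring

variable (U : Matrix V V ℝ)

lemma FF_nonneg (h1 : ∀ x y, U x y ≤ 1) (S : Finset V) (x : V) : 0 ≤ FF U S x :=
  prod_nonneg fun z _ => by linarith [h1 x z]

lemma FF_le_one (h0 : ∀ x y, 0 ≤ U x y) (h1 : ∀ x y, U x y ≤ 1) (S : Finset V) (x : V) :
    FF U S x ≤ 1 :=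
  prod_le_one (fun z _ => by linarith [h1 x z]) fun z _ => by linarith [h0 x z]

lemma FF_self (ho : ∀ x, U x x = 1) (S : Finset V) (x : V) (hx : x ∈ S) : FF U S x = 0 :=
  prod_eq_zero hx (by rw [ho, sub_self])

lemma AA_nonneg (h1 : ∀ x y, U x y ≤ 1) (S : Finset V) : 0 ≤ AA U S :=
  prod_nonneg fun a _ => prod_nonneg fun b _ => by
    split_ifs
    · exact zero_le_one
    · linarith [h1 a b]

lemma AA_erase (hs : ∀ x y, U x y = U y x) (h0 : ∀ x y, 0 ≤ U x y) (h1 : ∀ x y, U x y ≤ 1)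
    (S : Finset V) (x : V) : AA U S ≤ AA U (S.erase x) := by
  by_cases hx : x ∈ S
  · conv_lhs => rw [← insert_erase hx]
    rw [AA_insert U hs _ _ (notMem_erase x S)]
    have := AA_nonneg U h1 (S.erase x)
    have h2 : FF U (S.erase x) x ^ 2 ≤ 1 := pow_le_one₀ (FF_nonneg U h1 _ _) (FF_le_one U h0 h1 _ _)
    nlinarith
  · rw [erase_eq_of_notMem hx]

/-- the partition function -/
def ZZ (M : ℕ) : ℝ := ∑ S ∈ powersetCard M univ, AA U S

lemma ZZ_zero : ZZ U 0 = 1 := by
  simp [ZZ, AA]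

lemma ZZ_nonneg (h1 : ∀ x y, U x y ≤ 1) (M : ℕ) : 0 ≤ ZZ U M :=
  sum_nonneg fun S _ => AA_nonneg U h1 S

lemma count (g : Finset V → V → ℝ) (M : ℕ) :
    ∑ S ∈ powersetCard M (univ : Finset V), ∑ x ∈ Sᶜ, g (insert x S) x =
      ∑ S ∈ powersetCard (M + 1) (univ : Finset V), ∑ x ∈ S, g S x := by
  rw [sum_sigma', sum_sigma']
  refine sum_bij' (fun p _ => ⟨insert p.2 p.1, p.2⟩) (fun p _ => ⟨p.1.erase p.2, p.2⟩)
    ?_ ?_ ?_ ?_ ?_
  · rintro ⟨S, x⟩ h
    simp only [mem_sigma, mem_powersetCard, subset_univ, true_and, mem_compl] at h ⊢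
    exact ⟨by rw [card_insert_of_notMem h.2, h.1], mem_insert_self _ _⟩
  · rintro ⟨S, x⟩ h
    simp only [mem_sigma, mem_powersetCard, subset_univ, true_and, mem_compl] at h ⊢
    exact ⟨by rw [card_erase_of_mem h.2, h.1]; rfl, notMem_erase _ _⟩
  · rintro ⟨S, x⟩ h
    simp only [mem_sigma, mem_powersetCard, subset_univ, true_and, mem_compl] at h ⊢
    rw [erase_insert h.2]
  · rintro ⟨S, x⟩ h
    simp only [mem_sigma, mem_powersetCard, subset_univ, true_and] at h ⊢
    rw [insert_erase h.2]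
  · rintro ⟨S, x⟩ h
    rfl

lemma ZZ_succ (hs : ∀ x y, U x y = U y x) (ho : ∀ x, U x x = 1) (M : ℕ) :
    ((M : ℝ) + 1) * ZZ U (M + 1) = ∑ S ∈ powersetCard M univ, AA U S * ∑ x, FF U S x ^ 2 := by
  have h1 : ((M : ℝ) + 1) * ZZ U (M + 1) =
      ∑ S ∈ powersetCard (M + 1) (univ : Finset V), ∑ x ∈ S, AA U S := by
    rw [ZZ, mul_sum]
    refine sum_congr rfl fun S hS => ?_
    rw [sum_const, (mem_powersetCard.mp hS).2, nsmul_eq_mul]
    push_cast; ring
  rw [h1, ← count (fun S _ => AA U S) M]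
  refine sum_congr rfl fun S _ => ?_
  rw [mul_sum, ← sum_add_sum_compl S, sum_eq_zero (s := S), zero_add]
  · refine sum_congr rfl fun x hx => ?_
    rw [AA_insert U hs S x (mem_compl.mp hx)]
  · intro x hx
    rw [FF_self U ho S x hx]; ring

lemma FF_sq_ge (h0 : ∀ x y, 0 ≤ U x y) (h1 : ∀ x y, U x y ≤ 1) (S : Finset V) (x : V) :
    1 - 2 * ∑ z ∈ S, U x z ≤ FF U S x ^ 2 := by
  induction S using Finset.induction_on with
  | empty => simp [FF]
  | insert z S hz ih =>
    have e : FF U (insert z S) x = (1 - U x z) * FF U S x := by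
      unfold FF; rw [prod_insert hz]
    rw [e, sum_insert hz, mul_pow]
    have hF : FF U S x ^ 2 ≤ 1 := pow_le_one₀ (FF_nonneg U h1 _ _) (FF_le_one U h0 h1 _ _)
    have hF0 : 0 ≤ FF U S x ^ 2 := sq_nonneg _
    have hu := h0 x z
    have hu1 := h1 x z
    nlinarith [mul_nonneg hu hF0, mul_nonneg (mul_nonneg hu hu) hF0]

lemma ZZ_ratio (hs : ∀ x y, U x y = U y x) (ho : ∀ x, U x x = 1) (h0 : ∀ x y, 0 ≤ U x y)
    (h1 : ∀ x y, U x y ≤ 1) (B : ℝ) (hrow : ∀ x, ∑ y, U x y ≤ B) (M : ℕ) :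
    ((Fintype.card V : ℝ) - 2 * B * M) * ZZ U M ≤ ((M : ℝ) + 1) * ZZ U (M + 1) := by
  rw [ZZ_succ U hs ho, ZZ, mul_sum]
  refine sum_le_sum fun S hS => ?_
  rw [mul_comm]
  refine mul_le_mul_of_nonneg_left ?_ (AA_nonneg U h1 S)
  have h2 : ∑ x, (1 - 2 * ∑ z ∈ S, U x z) ≤ ∑ x, FF U S x ^ 2 :=
    sum_le_sum fun x _ => FF_sq_ge U h0 h1 S x
  refine le_trans ?_ h2
  have h4 : ∑ x, ∑ z ∈ S, U x z = ∑ z ∈ S, ∑ x, U x z := sum_comm
  rw [sum_sub_distrib, ← mul_sum, h4]
  have h3 : ∑ z ∈ S, ∑ x, U x z ≤ M * B := by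
    calc ∑ z ∈ S, ∑ x, U x z ≤ ∑ z ∈ S, B := sum_le_sum fun z _ => by
            rw [sum_congr rfl fun x _ => hs x z]; exact hrow z
      _ = M * B := by rw [sum_const, (mem_powersetCard.mp hS).2, nsmul_eq_mul]
  simp only [sum_const, card_univ, nsmul_eq_mul, mul_one]
  linarith

lemma ZZ_pos (hs : ∀ x y, U x y = U y x) (ho : ∀ x, U x x = 1) (h0 : ∀ x y, 0 ≤ U x y)
    (h1 : ∀ x y, U x y ≤ 1) (B : ℝ) (hB : 0 < B) (hrow : ∀ x, ∑ y, U x y ≤ B) (N : ℕ)
    (hN : 1 ≤ N) (h4 : 4 * B * N ≤ Fintype.card V) :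
    ∀ M : ℕ, M ≤ N → 0 < ZZ U M := by
  intro M
  induction M with
  | zero => intro _; rw [ZZ_zero]; exact one_pos
  | succ M ih =>
    intro hM
    have h := ih (by omega)
    have hr := ZZ_ratio U hs ho h0 h1 B hrow M
    have hMN : (M : ℝ) + 1 ≤ N := by exact_mod_cast hM
    have hM0 : (0 : ℝ) ≤ M := Nat.cast_nonneg M
    have hpos : 0 < (Fintype.card V : ℝ) - 2 * B * M := by nlinarith
    have h5 := lt_of_lt_of_le (mul_pos hpos h) hr
    exact (mul_pos_iff_of_pos_left (by positivity)).mp h5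

/-- the interaction of two particles -/
def QQ (t : V → V → ℝ) (z w : V) : ℝ :=
  (∑ x, ∑ y, t x y * (|U x z - U y z| * |U x w - U y w|)) / 2

lemma QQ_nonneg (t : V → V → ℝ) (ht : ∀ x y, 0 ≤ t x y) (z w : V) : 0 ≤ QQ U t z w :=
  div_nonneg (sum_nonneg fun x _ => sum_nonneg fun y _ => mul_nonneg (ht x y) (by positivity))
    (by norm_num)

lemma lap_quad (t : V → V → ℝ) (hs : ∀ x y, t x y = t y x) (f : V → ℝ) :
    ∑ x, ∑ y, lap t x y * (f x * f y) = (∑ x, ∑ y, t x y * (f x - f y) ^ 2) / 2 := by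
  have h1 : ∀ x, ∑ y, lap t x y * (f x * f y) = ∑ y, (t x y * f x ^ 2 - t x y * (f x * f y)) := by
    intro x
    unfold lap
    simp only [sub_mul, sum_sub_distrib, ite_mul, zero_mul]
    rw [sum_ite_eq univ x, if_pos (mem_univ x), sum_mul]
    congr 1
    exact sum_congr rfl fun y _ => by ring
  have h2 : ∑ x, ∑ y, t x y * f y ^ 2 = ∑ x, ∑ y, t x y * f x ^ 2 := by
    rw [sum_comm]
    exact sum_congr rfl fun x _ => sum_congr rfl fun y _ => by rw [hs y x]
  have h3 : ∑ x, ∑ y, t x y * (f x - f y) ^ 2 = ∑ x, ∑ y, t x y * f x ^ 2 +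
      ∑ x, ∑ y, t x y * f y ^ 2 - 2 * ∑ x, ∑ y, t x y * (f x * f y) := by
    rw [mul_sum, ← sum_add_distrib, ← sum_sub_distrib]
    refine sum_congr rfl fun x _ => ?_
    rw [mul_sum, ← sum_add_distrib, ← sum_sub_distrib]
    exact sum_congr rfl fun y _ => by ring
  rw [sum_congr rfl fun x _ => h1 x, h3, h2]
  simp only [sum_sub_distrib]
  ring

lemma prod_diff (f g : V → ℝ) (hf0 : ∀ z, 0 ≤ f z) (hf1 : ∀ z, f z ≤ 1) (hg0 : ∀ z, 0 ≤ g z)
    (hg1 : ∀ z, g z ≤ 1) (S : Finset V) :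
    |∏ z ∈ S, f z - ∏ z ∈ S, g z| ≤ ∑ z ∈ S, |f z - g z| := by
  induction S using Finset.induction_on with
  | empty => simp
  | insert z S hz ih =>
    rw [prod_insert hz, prod_insert hz, sum_insert hz]
    have e : f z * ∏ z ∈ S, f z - g z * ∏ z ∈ S, g z =
        (f z - g z) * ∏ z ∈ S, f z + g z * (∏ z ∈ S, f z - ∏ z ∈ S, g z) := by ring
    rw [e]
    refine (abs_add_le _ _).trans (add_le_add ?_ ?_)
    · rw [abs_mul]
      refine mul_le_of_le_one_right (abs_nonneg _) ?_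
      rw [abs_of_nonneg (prod_nonneg fun i _ => hf0 i)]
      exact prod_le_one (fun i _ => hf0 i) fun i _ => hf1 i
    · rw [abs_mul, abs_of_nonneg (hg0 z)]
      exact (mul_le_of_le_one_left (abs_nonneg _) (hg1 z)).trans ih

lemma QQ_diag (t : V → V → ℝ) (hs : ∀ x y, t x y = t y x) (c s B : ℝ) (E : Matrix V V ℝ)
    (hP : Profile t 0 c s B U E) (z : V) : QQ U t z z ≤ c := by
  have h1 : QQ U t z z = ∑ x, ∑ y, lap t x y * (U x z * U y z) := by
    rw [lap_quad t hs fun x => U x z, QQ]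
    congr 1
    refine sum_congr rfl fun x _ => sum_congr rfl fun y _ => ?_
    rw [abs_mul_abs_self]; ring
  have h2 : ∀ x, ∑ y, lap t x y * (U x z * U y z) =
      U x z * ((if x = z then c else 0) - E x z) := by
    intro x
    rw [← hP.eq x z, zero_mul, add_zero, Matrix.mul_apply, mul_sum]
    exact sum_congr rfl fun y _ => by ring
  rw [h1, sum_congr rfl fun x _ => h2 x]
  simp only [mul_sub, sum_sub_distrib, mul_ite, mul_zero]
  rw [sum_ite_eq' univ z, if_pos (mem_univ z), hP.one z, one_mul]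
  have h3 : 0 ≤ ∑ x, U x z * E x z :=
    sum_nonneg fun x _ => mul_nonneg (hP.nonneg x z) (hP.Enonneg x z)
  linarith

lemma QQ_sum (t : V → V → ℝ) (D c s B : ℝ) (ht : IsHopping t D) (E : Matrix V V ℝ) (hB : 0 < B)
    (hP : Profile t 0 c s B U E) (z : V) : ∑ w, QQ U t z w ≤ 2 * D * B ^ 2 := by
  have h1 : ∑ w, QQ U t z w =
      (∑ x, ∑ y, t x y * |U x z - U y z| * ∑ w, |U x w - U y w|) / 2 := by
    unfold QQ
    rw [← sum_div]
    congr 1
    rw [sum_comm]
    refine sum_congr rfl fun x _ => ?_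
    rw [sum_comm]
    refine sum_congr rfl fun y _ => ?_
    rw [mul_sum]
    exact sum_congr rfl fun w _ => by ring
  have h2 : ∀ x y, ∑ w, |U x w - U y w| ≤ 2 * B := by
    intro x y
    have : ∑ w, |U x w - U y w| ≤ ∑ w, (U x w + U y w) := sum_le_sum fun w _ => by
      have a1 := hP.nonneg x w
      have a2 := hP.nonneg y w
      rw [abs_le]; constructor <;> linarith
    rw [sum_add_distrib] at this
    linarith [hP.row x, hP.row y]
  have h3 : ∑ x, ∑ y, t x y * |U x z - U y z| ≤ 2 * D * B := by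
    have a1 : ∑ x, ∑ y, t x y * |U x z - U y z| ≤ ∑ x, ∑ y, (t x y * U x z + t x y * U y z) := by
      refine sum_le_sum fun x _ => sum_le_sum fun y _ => ?_
      rw [← mul_add]
      refine mul_le_mul_of_nonneg_left ?_ (ht.nonneg x y)
      have a1 := hP.nonneg x z
      have a2 := hP.nonneg y z
      rw [abs_le]; constructor <;> linarith
    have a2 : ∑ x, ∑ y, t x y * U y z = ∑ x, ∑ y, t x y * U x z := by
      rw [sum_comm]
      exact sum_congr rfl fun x _ => sum_congr rfl fun y _ => by rw [ht.symm y x]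
    have a3 : ∑ x, ∑ y, t x y * U x z ≤ D * B := by
      calc ∑ x, ∑ y, t x y * U x z ≤ ∑ x, D * U x z := sum_le_sum fun x _ => by
            rw [← sum_mul]
            exact mul_le_mul_of_nonneg_right (ht.row x) (hP.nonneg x z)
        _ = D * ∑ x, U z x := by rw [← mul_sum]; congr 1; exact sum_congr rfl fun x _ => hP.symm x z
        _ ≤ D * B := by
            have hD : 0 ≤ D := by
              have := ht.row z
              exact le_trans (sum_nonneg fun y _ => ht.nonneg z y) this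
            exact mul_le_mul_of_nonneg_left (hP.row z) hD
    simp only [sum_add_distrib] at a1
    linarith
  rw [h1]
  have h4 : ∑ x, ∑ y, t x y * |U x z - U y z| * ∑ w, |U x w - U y w| ≤
      ∑ x, ∑ y, t x y * |U x z - U y z| * (2 * B) :=
    sum_le_sum fun x _ => sum_le_sum fun y _ =>
      mul_le_mul_of_nonneg_left (h2 x y) (mul_nonneg (ht.nonneg x y) (abs_nonneg _))
  have h5 : ∑ x, ∑ y, t x y * |U x z - U y z| * (2 * B) =
      (∑ x, ∑ y, t x y * |U x z - U y z|) * (2 * B) := by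
    rw [sum_mul]; exact sum_congr rfl fun x _ => by rw [sum_mul]
  rw [h5] at h4
  nlinarith

lemma quad_le (t : V → V → ℝ) (D c s B : ℝ) (ht : IsHopping t D) (E : Matrix V V ℝ)
    (hP : Profile t 0 c s B U E) (S : Finset V) :
    ∑ x, ∑ y, lap t x y * (FF U S x * FF U S y) ≤
      S.card * c + ∑ z ∈ S, ∑ w ∈ S.erase z, QQ U t z w := by
  rw [lap_quad t ht.symm]
  have h1 : (∑ x, ∑ y, t x y * (FF U S x - FF U S y) ^ 2) / 2 ≤
      ∑ z ∈ S, ∑ w ∈ S, QQ U t z w := by
    have e : ∑ z ∈ S, ∑ w ∈ S, QQ U t z w = (∑ x, ∑ y, t x y *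
        (∑ z ∈ S, |U x z - U y z|) ^ 2) / 2 := by
      unfold QQ
      simp only [← sum_div]
      congr 1
      have e1 : ∀ x y, t x y * (∑ z ∈ S, |U x z - U y z|) ^ 2 =
          ∑ z ∈ S, ∑ w ∈ S, t x y * (|U x z - U y z| * |U x w - U y w|) := by
        intro x y
        rw [pow_two, sum_mul_sum, mul_sum]
        exact sum_congr rfl fun z _ => by rw [mul_sum]
      simp only [e1]
      symm
      rw [sum_congr rfl fun x _ => sum_comm, sum_comm]
      refine sum_congr rfl fun z _ => ?_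
      rw [sum_congr rfl fun x _ => sum_comm, sum_comm]
    rw [e]
    refine div_le_div_of_nonneg_right ?_ (by norm_num)
    refine sum_le_sum fun x _ => sum_le_sum fun y _ => ?_
    refine mul_le_mul_of_nonneg_left ?_ (ht.nonneg x y)
    rw [← sq_abs]
    refine pow_le_pow_left₀ (abs_nonneg _) ?_ 2
    have := prod_diff (fun z => 1 - U x z) (fun z => 1 - U y z)
      (fun z => by linarith [hP.le_one x z]) (fun z => by linarith [hP.nonneg x z])
      (fun z => by linarith [hP.le_one y z]) (fun z => by linarith [hP.nonneg y z]) S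
    refine this.trans (le_of_eq (sum_congr rfl fun z _ => ?_))
    rw [abs_sub_comm]; congr 1; ring
  refine h1.trans ?_
  have h2 : ∀ z ∈ S, ∑ w ∈ S, QQ U t z w ≤ c + ∑ w ∈ S.erase z, QQ U t z w := by
    intro z hz
    rw [← add_sum_erase S _ hz]
    linarith [QQ_diag U t ht.symm c s B E hP z]
  refine (sum_le_sum h2).trans ?_
  rw [sum_add_distrib, sum_const, nsmul_eq_mul]

/-- the Jastrow wave function of `N` particles -/
def PP (N : ℕ) (S : Finset V) : ℝ := if S.card = N then Real.sqrt (AA U S) else 0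

lemma a_PP (hs : ∀ x y, U x y = U y x) (ho : ∀ x, U x x = 1) (h1 : ∀ x y, U x y ≤ 1)
    (M : ℕ) (x : V) (S : Finset V) :
    a x (PP U (M + 1)) S = if S.card = M then Real.sqrt (AA U S) * FF U S x else 0 := by
  rw [a_apply]
  by_cases hx : x ∈ S
  · rw [if_pos hx, FF_self U ho S x hx, mul_zero, ite_self]
  · rw [if_neg hx, PP, card_insert_of_notMem hx]
    by_cases hM : S.card = M
    · rw [if_pos (by rw [hM]), if_pos hM, AA_insert U hs S x hx,
        Real.sqrt_mul (AA_nonneg U h1 S), Real.sqrt_sq (FF_nonneg U h1 S x)]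
    · rw [if_neg (fun h => hM (by omega)), if_neg hM]

lemma sum_card (M : ℕ) (f : Finset V → ℝ) :
    ∑ S : Finset V, (if S.card = M then f S else 0) = ∑ S ∈ powersetCard M univ, f S := by
  rw [← sum_filter]
  refine sum_congr ?_ fun _ _ => rfl
  ext S; simp [mem_powersetCard]

lemma PP_dot (h1 : ∀ x y, U x y ≤ 1) (N : ℕ) : PP U N ⬝ᵥ PP U N = ZZ U N := by
  unfold dotProduct ZZ
  rw [← sum_card]
  refine sum_congr rfl fun S _ => ?_
  unfold PP
  split_ifs
  · exact Real.mul_self_sqrt (AA_nonneg U h1 S)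
  · exact mul_zero _

lemma kin_PP (t : V → V → ℝ) (hs : ∀ x y, U x y = U y x) (ho : ∀ x, U x x = 1)
    (h1 : ∀ x y, U x y ≤ 1) (M : ℕ) :
    kin t (PP U (M + 1)) = ∑ S ∈ powersetCard M univ,
      AA U S * ∑ x, ∑ y, lap t x y * (FF U S x * FF U S y) := by
  have hG : ∀ x y, G (PP U (M + 1)) x y = ∑ S ∈ powersetCard M univ,
      AA U S * (FF U S x * FF U S y) := by
    intro x y
    unfold G dotProduct
    rw [← sum_card]
    refine sum_congr rfl fun S _ => ?_
    rw [a_PP U hs ho h1, a_PP U hs ho h1]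
    split_ifs
    · have := Real.mul_self_sqrt (AA_nonneg U h1 S)
      linear_combination (FF U S x * FF U S y) * this
    · exact mul_zero _
  unfold kin
  simp only [hG, mul_sum]
  symm
  rw [sum_comm]
  refine sum_congr rfl fun x _ => ?_
  rw [sum_comm]
  exact sum_congr rfl fun y _ => sum_congr rfl fun S _ => by ring

lemma pair_one (hs : ∀ x y, U x y = U y x) (h0 : ∀ x y, 0 ≤ U x y) (h1 : ∀ x y, U x y ≤ 1)
    (K : ℕ) (z w : V) :
    ∑ S ∈ powersetCard K univ, (if z ∈ S ∧ w ∈ S.erase z then AA U S else 0) ≤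
      if 2 ≤ K then ZZ U (K - 2) else 0 := by
  by_cases hK : 2 ≤ K
  · rw [if_pos hK, ← sum_filter]
    set P := (powersetCard K (univ : Finset V)).filter (fun S => z ∈ S ∧ w ∈ S.erase z) with hPd
    have a1 : ∑ S ∈ P, AA U S ≤ ∑ S ∈ P, AA U ((S.erase z).erase w) :=
      sum_le_sum fun S _ => (AA_erase U hs h0 h1 S z).trans (AA_erase U hs h0 h1 _ w)
    have inj : Set.InjOn (fun S : Finset V => (S.erase z).erase w) P := by
      intro S hS T hT h
      simp only [hPd, coe_filter, mem_powersetCard, subset_univ, true_and, Set.mem_ofPred_eq]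
        at hS hT
      have e1 : insert w ((S.erase z).erase w) = S.erase z := insert_erase hS.2.2
      have e2 : insert w ((T.erase z).erase w) = T.erase z := insert_erase hT.2.2
      have e3 : S.erase z = T.erase z := by rw [← e1, ← e2]; congr 1
      rw [← insert_erase hS.2.1, ← insert_erase hT.2.1, e3]
    rw [← sum_image (f := fun T => AA U T) inj] at a1
    refine a1.trans (sum_le_sum_of_subset_of_nonneg ?_ fun T _ _ => AA_nonneg U h1 T)
    intro T hT
    rw [mem_image] at hT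
    obtain ⟨S, hS, rfl⟩ := hT
    simp only [hPd, mem_filter, mem_powersetCard, subset_univ, true_and] at hS ⊢
    rw [card_erase_of_mem hS.2.2, card_erase_of_mem hS.2.1, hS.1]
    rfl
  · rw [if_neg hK]
    refine (sum_eq_zero fun S hS => ?_).le
    rw [if_neg]
    rintro ⟨hz, hw⟩
    have e1 := card_pos.mpr ⟨w, hw⟩
    rw [card_erase_of_mem hz, (mem_powersetCard.mp hS).2] at e1
    omega

lemma pair_all (t : V → V → ℝ) (D c s B : ℝ) (ht : IsHopping t D) (E : Matrix V V ℝ) (hB : 0 < B)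
    (hP : Profile t 0 c s B U E) (K : ℕ) :
    ∑ S ∈ powersetCard K univ, AA U S * ∑ z ∈ S, ∑ w ∈ S.erase z, QQ U t z w ≤
      (Fintype.card V * (2 * D * B ^ 2)) * (if 2 ≤ K then ZZ U (K - 2) else 0) := by
  set R : ℝ := if 2 ≤ K then ZZ U (K - 2) else 0 with hR
  have hR0 : 0 ≤ R := by
    rw [hR]; split_ifs
    · exact ZZ_nonneg U hP.le_one _
    · exact le_rfl
  have e1 : ∀ S : Finset V, AA U S * ∑ z ∈ S, ∑ w ∈ S.erase z, QQ U t z w =
      ∑ z, ∑ w, QQ U t z w * (if z ∈ S ∧ w ∈ S.erase z then AA U S else 0) := by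
    intro S
    rw [mul_sum, ← sum_filter_add_sum_filter_not univ (fun z => z ∈ S)]
    rw [sum_eq_zero (s := univ.filter fun z => ¬ z ∈ S), add_zero]
    · rw [show (univ.filter fun z => z ∈ S) = S by ext z; simp]
      refine sum_congr rfl fun z hz => ?_
      rw [mul_sum, ← sum_filter_add_sum_filter_not univ (fun w => w ∈ S.erase z)]
      rw [sum_eq_zero (s := univ.filter fun w => ¬ w ∈ S.erase z), add_zero]
      · rw [show (univ.filter fun w => w ∈ S.erase z) = S.erase z by ext w; simp]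
        refine sum_congr rfl fun w hw => ?_
        rw [if_pos ⟨hz, hw⟩, mul_comm]
      · intro w hw
        rw [mem_filter] at hw
        rw [if_neg (fun h => hw.2 h.2), mul_zero]
    · intro z hz
      rw [mem_filter] at hz
      refine sum_eq_zero fun w _ => ?_
      rw [if_neg (fun h => hz.2 h.1), mul_zero]
  have e2 : ∑ S ∈ powersetCard K univ, AA U S * ∑ z ∈ S, ∑ w ∈ S.erase z, QQ U t z w =
      ∑ z, ∑ w, QQ U t z w * ∑ S ∈ powersetCard K univ,
        (if z ∈ S ∧ w ∈ S.erase z then AA U S else 0) := by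
    rw [sum_congr rfl fun S _ => e1 S, sum_comm]
    refine sum_congr rfl fun z _ => ?_
    rw [sum_comm]
    exact sum_congr rfl fun w _ => by rw [mul_sum]
  rw [e2]
  calc _ ≤ ∑ z, ∑ w, QQ U t z w * R := sum_le_sum fun z _ => sum_le_sum fun w _ =>
        mul_le_mul_of_nonneg_left (pair_one U hP.symm hP.nonneg hP.le_one K z w)
          (QQ_nonneg U t ht.nonneg z w)
    _ = ∑ z, (∑ w, QQ U t z w) * R := sum_congr rfl fun z _ => by rw [sum_mul]
    _ ≤ ∑ z : V, (2 * D * B ^ 2) * R := sum_le_sum fun z _ =>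
        mul_le_mul_of_nonneg_right (QQ_sum U t D c s B ht E hB hP z) hR0
    _ = _ := by rw [sum_const, card_univ, nsmul_eq_mul]; ring

theorem t_UPP : S_UPP := by
  intro V _ _ t D c s B U E hD hB ht hP N hN h4
  obtain ⟨M, rfl⟩ : ∃ M, N = M + 1 := ⟨N - 1, by omega⟩
  set n : ℝ := (Fintype.card V : ℝ) with hn
  have hMr : (0 : ℝ) ≤ M := Nat.cast_nonneg M
  have hNr : (1 : ℝ) ≤ ((M + 1 : ℕ) : ℝ) := by push_cast; linarith
  have hnpos : 0 < n := by nlinarith
  have hpos := ZZ_pos U hP.symm hP.one hP.nonneg hP.le_one B hB hP.row (M + 1) hN h4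
  have hZN := hpos (M + 1) le_rfl
  set N : ℝ := ((M + 1 : ℕ) : ℝ) with hNdef
  have hNM : N = M + 1 := by rw [hNdef]; push_cast; ring
  -- ratios
  have ratio : ∀ K : ℕ, K + 1 ≤ M + 1 → ZZ U K ≤ (2 * N / n) * ZZ U (K + 1) := by
    intro K hK
    have hr := ZZ_ratio U hP.symm hP.one hP.nonneg hP.le_one B hP.row K
    have hKN : (K : ℝ) + 1 ≤ N := by rw [hNM]; exact_mod_cast hK
    have hK0 : (0 : ℝ) ≤ K := Nat.cast_nonneg K
    have hz := hpos K (by omega)
    have hz1 := hpos (K + 1) hK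
    have hh : n / 2 ≤ n - 2 * B * K := by nlinarith
    have h5 : n / 2 * ZZ U K ≤ N * ZZ U (K + 1) := by
      calc n / 2 * ZZ U K ≤ (n - 2 * B * K) * ZZ U K := mul_le_mul_of_nonneg_right hh hz.le
        _ ≤ ((K : ℝ) + 1) * ZZ U (K + 1) := hr
        _ ≤ N * ZZ U (K + 1) := mul_le_mul_of_nonneg_right hKN hz1.le
    have e : (2 * N / n) * ZZ U (K + 1) = (N * ZZ U (K + 1)) / (n / 2) := by
      field_simp
    rw [e, le_div_iff₀ (by positivity)]
    linarith
  have ratio1 : ZZ U M ≤ (N / n) * (1 + 4 * B * (N / n)) * ZZ U (M + 1) := by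
    have hr := ZZ_ratio U hP.symm hP.one hP.nonneg hP.le_one B hP.row M
    rw [← hNM] at hr
    have hz := hpos M (by omega)
    set x : ℝ := N / n with hx
    have hx0 : 0 < x := by positivity
    have hxN : N = x * n := by rw [hx]; field_simp
    have hx4 : 4 * B * x ≤ 1 := by
      have : 4 * B * x * n ≤ 1 * n := by rw [one_mul, mul_assoc, ← hxN]; exact h4
      exact le_of_mul_le_mul_right this hnpos
    have hMN : (M : ℝ) ≤ x * n := by rw [← hxN, hNM]; linarith
    have h5 : n * (1 - 2 * B * x) * ZZ U M ≤ x * n * ZZ U (M + 1) := by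
      refine le_trans (mul_le_mul_of_nonneg_right ?_ hz.le) (by rw [← hxN]; exact hr)
      nlinarith
    have h6 : (1 - 2 * B * x) * ZZ U M ≤ x * ZZ U (M + 1) := by
      have : n * ((1 - 2 * B * x) * ZZ U M) ≤ n * (x * ZZ U (M + 1)) := by linarith
      exact le_of_mul_le_mul_left this hnpos
    have h7 : 1 ≤ (1 + 4 * B * x) * (1 - 2 * B * x) := by
      have hBx : 0 ≤ B * x := by positivity
      nlinarith
    have h8 : 0 ≤ 1 + 4 * B * x := by positivity
    calc ZZ U M ≤ ((1 + 4 * B * x) * (1 - 2 * B * x)) * ZZ U M := by nlinarith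
      _ = (1 + 4 * B * x) * ((1 - 2 * B * x) * ZZ U M) := by ring
      _ ≤ (1 + 4 * B * x) * (x * ZZ U (M + 1)) := mul_le_mul_of_nonneg_left h6 h8
      _ = _ := by ring
  -- the kinetic energy
  have hkin : kin t (PP U (M + 1)) ≤ M * c * ZZ U M +
      (n * (2 * D * B ^ 2)) * (if 2 ≤ M then ZZ U (M - 2) else 0) := by
    rw [kin_PP U t hP.symm hP.one hP.le_one]
    refine le_trans (sum_le_sum fun S hS => mul_le_mul_of_nonneg_left
      (quad_le U t D c s B ht E hP S) (AA_nonneg U hP.le_one S)) ?_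
    simp only [mul_add, sum_add_distrib]
    refine add_le_add ?_ (pair_all U t D c s B ht E hB hP M)
    refine (le_of_eq ?_)
    rw [ZZ, mul_sum]
    refine sum_congr rfl fun S hS => ?_
    rw [(mem_powersetCard.mp hS).2]; ring
  have hpair : (n * (2 * D * B ^ 2)) * (if 2 ≤ M then ZZ U (M - 2) else 0) ≤
      16 * D * B ^ 2 * (N / n) ^ 2 * N * ZZ U (M + 1) := by
    have hr0 : 0 ≤ 2 * N / n := by positivity
    have h9 : (if 2 ≤ M then ZZ U (M - 2) else 0) ≤ (2 * N / n) ^ 3 * ZZ U (M + 1) := by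
      split_ifs with h2
      · obtain ⟨K, rfl⟩ : ∃ K, M = K + 2 := ⟨M - 2, by omega⟩
        have r1 := ratio K (by omega)
        have r2 := ratio (K + 1) (by omega)
        have r3 := ratio (K + 2) (by omega)
        calc ZZ U (K + 2 - 2) = ZZ U K := by congr 1
          _ ≤ (2 * N / n) * ZZ U (K + 1) := r1
          _ ≤ (2 * N / n) * ((2 * N / n) * ZZ U (K + 2)) := mul_le_mul_of_nonneg_left r2 hr0
          _ ≤ (2 * N / n) * ((2 * N / n) * ((2 * N / n) * ZZ U (K + 2 + 1))) :=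
              mul_le_mul_of_nonneg_left (mul_le_mul_of_nonneg_left r3 hr0) hr0
          _ = _ := by ring
      · positivity
    calc _ ≤ (n * (2 * D * B ^ 2)) * ((2 * N / n) ^ 3 * ZZ U (M + 1)) :=
          mul_le_mul_of_nonneg_left h9 (by positivity)
      _ = _ := by field_simp; ring
  -- normalisation
  refine ⟨fun S => PP U (M + 1) S / Real.sqrt (ZZ U (M + 1)), ?_, ?_, ?_⟩
  · intro S hS
    simp only [PP, if_neg hS, zero_div]
  · have e : (fun S => PP U (M + 1) S / Real.sqrt (ZZ U (M + 1))) ⬝ᵥ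
        (fun S => PP U (M + 1) S / Real.sqrt (ZZ U (M + 1))) =
        (PP U (M + 1) ⬝ᵥ PP U (M + 1)) / ZZ U (M + 1) := by
      unfold dotProduct
      rw [sum_div]
      refine sum_congr rfl fun S _ => ?_
      rw [div_mul_div_comm, Real.mul_self_sqrt hZN.le]
    rw [e, PP_dot U hP.le_one, div_self hZN.ne']
  · have e : kin t (fun S => PP U (M + 1) S / Real.sqrt (ZZ U (M + 1))) =
        kin t (PP U (M + 1)) / ZZ U (M + 1) := by
      have e0 : (fun S => PP U (M + 1) S / Real.sqrt (ZZ U (M + 1))) =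
          (Real.sqrt (ZZ U (M + 1)))⁻¹ • PP U (M + 1) := by
        ext S; rw [Pi.smul_apply, smul_eq_mul, div_eq_inv_mul]
      have e1 : (Real.sqrt (ZZ U (M + 1)))⁻¹ * (Real.sqrt (ZZ U (M + 1)))⁻¹ =
          (ZZ U (M + 1))⁻¹ := by
        rw [← mul_inv, Real.mul_self_sqrt hZN.le]
      have e2 : ∀ x y, G ((Real.sqrt (ZZ U (M + 1)))⁻¹ • PP U (M + 1)) x y =
          (ZZ U (M + 1))⁻¹ * G (PP U (M + 1)) x y := by
        intro x y
        unfold G
        rw [map_smul, map_smul, smul_dotProduct, dotProduct_smul, smul_eq_mul, smul_eq_mul,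
          ← mul_assoc, e1]
      rw [e0]
      unfold kin
      simp only [e2]
      rw [sum_div]
      refine sum_congr rfl fun x _ => ?_
      rw [sum_div]
      refine sum_congr rfl fun y _ => ?_
      rw [div_eq_mul_inv]; ring
    rw [e, div_le_iff₀ hZN]
    refine hkin.trans ?_
    have hc := hP.c0
    have h10 : M * c * ZZ U M ≤ M * c * ((N / n) * (1 + 4 * B * (N / n)) * ZZ U (M + 1)) :=
      mul_le_mul_of_nonneg_left ratio1 (by positivity)
    have h11 : (N - 1) = M := by rw [hNM]; ring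
    rw [h11]
    linarith

end Pool.Agent.Run7.h270.DEP

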